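import Pool.Agent.H.MP_829a29_al.Main

set_option autoImplicit false

namespace Pool.Agent.Results.MP_829a29_al.Q1

open Pool.Agent.H.MP_829a29_al

universe u

theorem result (Q : Type u) [MulOneClass Q] (ld rd : Q → Q → Q)
    (hld : ∀ a b x : Q, ld a b = x ↔ a * x = b) (hrd : ∀ a b x : Q, rd b a = x ↔ x * a = b)
    (hnil : Group.IsNilpotent (Mlt Q)) :
    ∃ k : ℕ, 1 ≤ k ∧
      k ≤ 2 * (2 * Group.nilpotencyClass (Mlt Q)) ^ Group.nilpotencyClass (Mlt Q) ∧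
      ∀ n : ℕ, k < n → ∀ t : Tm Q n,
        (∀ x : Fin n → Q, (∃ i, x i = 1) → t.eval ld rd x = 1) →
        ∃ q : Q, ∀ x : Fin n → Q, t.eval ld rd x = q := by
  refine ⟨_, ?_, le_rfl, fun n hn t ht => ⟨1, main Q ld rd hld hrd n hn t ht⟩⟩
  rcases Nat.eq_zero_or_pos (Group.nilpotencyClass (Mlt Q)) with h | h
  · simp [h]
  · exact Nat.mul_pos two_pos (Nat.pow_pos (by omega))

end Pool.Agent.Results.MP_829a29_al.Q1
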